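import Mathlib
import Pool.Agent.H604.LD.FinalP

/-!
# Primes `α T² + β` over `F_q[X]`, `q` even, `T` in a residue class, and the least such prime

Let `K` be a finite field with an even number `q` of elements (`q = 2` included), `α ≠ 0` and `β`
coprime with `α β` not a square, `M` monic and `α R² + β` prime to `M`.  The number of the monic
`T ≡ R` modulo `M` of degree `d` with `α T² + β` irreducible is given, uniformly, by the
Bateman–Horn formula with a power saving; moreover there is such a `T` of every degree
`d ≥ B (deg α + deg (α β)' + deg M + 1)` with `2 d + deg α > deg β` (a bound of the type of Linnik's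
theorem).

Idea.  For `f = a² + X y²` with `y` fixed, the parity of the number of prime factors of `f` is, for
`a` in a residue class modulo `y⁵`, a constant times the sign given by the residue at infinity of
`X a'³ / (a y²)`; repeated differencing gives `μ(f)` level of distribution one.  A combinatorial
identity reduces the primes to the sums of `μ(D)` over the divisors `D` of `f` of degree at most
`deg f / 2`, with and without the factor `μ(f)`.  The `D` of degree near `deg f / 2` are treated with
the fibres `D + m v²`, `m` a prime of small degree: `(m D)' = s²` is constant on the fibre, so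
`m D = T² + X s²` with `T = T₀ + m v`, the root of `f` modulo `D` is `T / s` times a constant, and
`μ(D)` is a product of local functions at the primes dividing `s`; if `s` has a prime divisor of
suitable degree the sum over the fibre has a power saving.  The average over `m` of the number of
these prime divisors is almost constant (exact second moment), so that almost every `D` is covered.

Authors.  The proof is joint work of helper604 (statements, reductions, windows) with helper251 (the
covering idea), helper524 (parity formula), helper356 (level of distribution), helper328 (summation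
over the fibres), helper187 and helper253 (the sign of the root on a fibre), helper181 (bound for a fibre),
helper118 (second moment), helper975 (detection of the roots, near sums), helper161 (residue
classes), helper199, helper670 (divisor sums), helper894 (assembly), helper553 (reduction of the quadratic
polynomials to residue classes), helper122 (identity for primes), and with the authors of the
Chowla conjecture over `F_q[X]`, `q` even, on which it rests (helper985, helper524, helper604,
helper914 and others, MP_715a43_nt.FullChowlaEvenChar).
-/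

set_option autoImplicit false

namespace Pool.Agent.Results.MP_a1177c_nt.ClassesAndLeastPrime

open Polynomial

/-- **Primes `α T² + β` over `F_q[X]`, `q` even, `T` in a residue class.** -/
theorem result (K : Type) [Field K] [Fintype K] (hK : Even (Fintype.card K)) :
    (∃ δ θ : ℝ, 0 < θ ∧ θ < δ ∧ ∃ d₀ : ℕ, ∀ (α β M R : K[X]) (d : ℕ), α ≠ 0 → IsCoprime α β →
      ¬ IsSquare (α * β) → M.Monic → IsCoprime (α * R ^ 2 + β) M →
      β.natDegree < 2 * d + α.natDegree → d₀ ≤ d →
      ((α.natDegree + (derivative (α * β)).natDegree + M.natDegree : ℕ) : ℝ) ≤ θ * d →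
      |(2 * (d : ℝ) + α.natDegree) *
          ({T : K[X] | T.Monic ∧ T.natDegree = d ∧ M ∣ T - R ∧
            Irreducible (α * T ^ 2 + β)}.ncard : ℝ) -
        (Fintype.card K : ℝ) ^ (d - M.natDegree) /
          ∏ᶠ P ∈ {P : K[X] | P.Monic ∧ Irreducible P ∧ P ∣ α * M},
          (1 - 1 / (Fintype.card K : ℝ) ^ P.natDegree)| ≤
        (Fintype.card K : ℝ) ^ ((1 - δ) * d)) ∧
    ∃ B : ℕ, ∀ (α β M R : K[X]) (d : ℕ), α ≠ 0 → IsCoprime α β → ¬ IsSquare (α * β) → M.Monic →
      IsCoprime (α * R ^ 2 + β) M → β.natDegree < 2 * d + α.natDegree →
      B * (α.natDegree + (derivative (α * β)).natDegree + M.natDegree + 1) ≤ d →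
      ∃ T : K[X], T.Monic ∧ T.natDegree = d ∧ M ∣ T - R ∧ Irreducible (α * T ^ 2 + β) := by
  have hchar : CharP K 2 := by
    obtain ⟨p, hp⟩ := CharP.exists K
    have := hp
    obtain ⟨m, hprime, hcard⟩ := FiniteField.card K p
    rw [hcard] at hK
    have : p = 2 := (Nat.Prime.even_iff hprime).1 (Nat.even_pow.1 hK).1
    rwa [this] at hp
  obtain ⟨δ, θ, hδ, hθ, d₀, h⟩ := Pool.Agent.H604.LD.quadC Pool.Agent.H604.LD.s_bhqc K
  obtain ⟨B, hB⟩ := Pool.Agent.H604.LD.leastC Pool.Agent.H604.LD.s_bhqc K
  refine ⟨⟨δ, min θ (δ / 2), lt_min hθ (half_pos hδ),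
    (min_le_right _ _).trans_lt (half_lt_self hδ), d₀, ?_⟩,
    B, fun α β M R d h1 h2 h3 h4 h5 h6 h7 => hB α β M R d h1 h2 h4 h5 h3 h6 h7⟩
  intro α β M R d h1 h2 h3 h4 h5 h6 h7 h8
  have h9 := h α β (X ^ d) M R d 0 h1 h2 h4 h5 h3 h6 (monic_X_pow d) (natDegree_X_pow d) h7
    (by
      rw [add_zero]
      exact h8.trans (mul_le_mul_of_nonneg_right (min_le_left _ _) (Nat.cast_nonneg d)))
  rw [Nat.sub_zero] at h9
  have h10 : {T : K[X] | M ∣ T - R ∧ (T - X ^ d).degree < (d : WithBot ℕ) ∧
      Irreducible (α * T ^ 2 + β)} = {T : K[X] | T.Monic ∧ T.natDegree = d ∧ M ∣ T - R ∧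
        Irreducible (α * T ^ 2 + β)} := by
    ext T
    rw [Set.mem_ofPred_eq, Set.mem_ofPred_eq,
      Pool.Agent.H604.LD.interval_eq (monic_X_pow d) (natDegree_X_pow d) T]
    tauto
  rw [h10] at h9
  exact h9

end Pool.Agent.Results.MP_a1177c_nt.ClassesAndLeastPrime
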