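import Mathlib
import Pool.Agent.H568.TrN
import Pool.Agent.H568.LB.LoC
import Pool.Agent.H568.PH.Fin

/-!
# The Hardy-Littlewood formula with factors close to `1` below the range of the asymptotic formula

Let `a > 0` and `b` be fixed. For almost all constant terms `|c| ≤ C` with `C ≥ x^(5/6+ε)` the number of prime values of
`a m² + b m + c`, `m ≤ x`, is asymptotic to the Hardy-Littlewood value (library, `N791`, `N792`). Below this exponent the
library has the factor `3/4` from below for `C ≥ x^(7/10+ε)`, with a jump at `5/6`. Here, for `C ≥ x^(5/6-k+ε)`,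
`0 < k ≤ 2/15`, the number of primes in every interval is between `(1 - 12 k²)` and `(1 + (11/3) k)` times the expected
number, for 100 percent of the `c` with `|c| ≤ C` (both signs): the two factors tend to `1` when the exponent tends to
`5/6`; for the exponent `7/10` they are `0.786` and `1.489`. The same holds for 100 percent of the pairs of integers
`|b|, |c| ≤ H` and all `m ≤ N`, `H² ≤ N ≤ H^(2/(5/6-k)-ε)` (the library has the asymptotic formula for
`N ≤ H^(12/5-ε)` and the factor `3/4` for `N ≤ H^(20/7-ε)`). For thinner families of constant terms, below the range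
`C ≥ x^(7/10+ε)` of the library, the number of primes is still between `1/2` and `5/3` times the expected number for
`C ≥ x^(2/3+ε)`, and at least `1/10` times this number for `C ≥ x^(5/8+ε)`; and for `C ≥ x^(1/2+ε)` a positive proportion of
the `c` have at least `κ x / log x` primes `a m² + b m + c`, `m ≤ x`.

Proof. The divisors `j` of the values with `x^(2/3+k+ε') < j < x^(1-ε')` are accessible on average over `c` (a large
sieve over the roots of congruences), and so are the divisors `≤ x^(9/10)`. After a sieve by the primes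
`≤ Q = x^(2/5+ε')` one is left with products of at most four primes `> Q`. The type II functions attached to the pairs
(one prime, two primes) and (two primes, two primes) cancel all products of three primes of which one is
`> U = x^(2/3+k)`, and all products of four primes. For the lower bound one removes the products of two primes by the
weight `1` at the primes `≤ U`; what is lost is twice the number of the products of three primes `≤ U`, which is
`O(k²)` with an explicit constant. For the upper bound the weight of a prime `p ≤ U` is a step function of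
`log p / log x` with 1000 steps, decreasing linearly from `1` at `x^(2/3-2k)` to `0` at `x^(2/3+k)`, so that the weights
of the three prime factors of a value with three prime factors `≤ U` have sum `1` up to `4/1000`; what is lost are the
products of two primes, `O(k)` with an explicit constant (files `Na1` to `Na4`, `Nb1` to `Nb5`). Everything is uniform
in `b² ≤ Λ C`; completing the square, the pairs `(b, c)` are such families. For the exponents `2/3` and `5/8` see
`MP_391708_nt.TwoSidedThinFamily` and `MP_a17b09_nt.HalfBeyondHeight` (the same theorems `conL`, `conUp`, `con58`): the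
numbers with a divisor near `x` are few for `C ≥ x^(3/5)` (double large sieve), and in the sieves also the products of
two, three and five primes are removed by bilinear corrections.
-/

set_option autoImplicit false

namespace Pool.Agent.Results.MP_a1177c_nt.NearAsymptotic

open Finset Filter Topology

/-- the triple `(a, b, c)` is admissible -/
def Admissible (a b c : ℤ) : Prop :=
  0 < a ∧ (∀ d : ℤ, d ∣ a → d ∣ b → d ∣ c → IsUnit d) ∧ ¬ ((2 : ℤ) ∣ a + b ∧ (2 : ℤ) ∣ c) ∧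
    ¬ IsSquare (b ^ 2 - 4 * a * c)

/-- the number of `u < m ≤ v` for which `a m² + b m + c` is a (positive) prime -/
def primeCount (a b c : ℤ) (u v : ℕ) : ℕ :=
  #((Ioc u v).filter (fun m : ℕ => (a * (m : ℤ) ^ 2 + b * m + c).toNat.Prime))

/-- the `ε` of the problem: `2` if `a + b` is even and `1` if `a + b` is odd -/
noncomputable def eps (a b : ℤ) : ℝ := if (2 : ℤ) ∣ a + b then 2 else 1

/-- the product `∏_{p > 2, p ∣ gcd(a, b)} p / (p - 1)` -/
noncomputable def gcdProd (a b : ℤ) : ℝ :=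
  ∏ p ∈ (Int.gcd a b).primeFactors.filter (fun p => 2 < p), (p : ℝ) / (p - 1)

/-- the product `∏_{2 < p ≤ z, p ∤ a} (1 - (D / p) / (p - 1))`, where `D = b² - 4 a c` -/
noncomputable def partialC (a b c : ℤ) (z : ℕ) : ℝ :=
  ∏ p ∈ (Icc 3 z).filter (fun p : ℕ => p.Prime ∧ ¬ (p : ℤ) ∣ a),
    (1 - (jacobiSym (b ^ 2 - 4 * a * c) p : ℝ) / (p - 1))

/-- the sum of `1 / log |a m² + b m + c|` over the `u < m ≤ v` with `|a m² + b m + c| ≥ 2` -/
noncomputable def logSum (a b c : ℤ) (u v : ℕ) : ℝ :=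
  ∑ m ∈ (Ioc u v).filter (fun m : ℕ => 2 ≤ |a * (m : ℤ) ^ 2 + b * m + c|),
    1 / Real.log |(a : ℝ) * m ^ 2 + b * m + c|

/-- The product `C(a, b, c)` converges to a number `S > 0`, and `M = eps(a, b) · S · ∏_{p > 2, p ∣ gcd(a, b)} p / (p - 1)`
is at least `θ`; and for every interval `(u, v]` with `v ≤ x` the number of `u < m ≤ v` for which `f(m) = a m² + b m + c`
is prime is at least `κ1 M ∑_{u < m ≤ v} 1 / log |f(m)| - η M x / log x` and at most
`κ2 M ∑_{u < m ≤ v} 1 / log |f(m)| + η M x / log x`. -/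
def Between (κ1 κ2 : ℝ) (a : ℤ) (θ η : ℝ) (x : ℕ) (b c : ℤ) : Prop :=
  ∃ S : ℝ, 0 < S ∧ Tendsto (fun z => partialC a b c z) atTop (𝓝 S) ∧ θ ≤ eps a b * S * gcdProd a b ∧
    ∀ u v : ℕ, u ≤ v → v ≤ x →
      κ1 * (eps a b * S * gcdProd a b * logSum a b c u v) -
        η * (eps a b * S * gcdProd a b * x / Real.log x) ≤ (primeCount a b c u v : ℝ) ∧
      (primeCount a b c u v : ℝ) ≤ κ2 * (eps a b * S * gcdProd a b * logSum a b c u v) +
        η * (eps a b * S * gcdProd a b * x / Real.log x)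

/-- The first half of `Between`: the product `C(a, b, c)` converges to a number `S > 0`, `M ≥ θ`, and for every interval
`(u, v]` with `v ≤ x` the number of `u < m ≤ v` for which `f(m)` is prime is at least
`κ M ∑_{u < m ≤ v} 1 / log |f(m)| - η M x / log x`. -/
def AtLeast (κ : ℝ) (a : ℤ) (θ η : ℝ) (x : ℕ) (b c : ℤ) : Prop :=
  ∃ S : ℝ, 0 < S ∧ Tendsto (fun z => partialC a b c z) atTop (𝓝 S) ∧ θ ≤ eps a b * S * gcdProd a b ∧
    ∀ u v : ℕ, u ≤ v → v ≤ x →
      κ * (eps a b * S * gcdProd a b * logSum a b c u v) -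
        η * (eps a b * S * gcdProd a b * x / Real.log x) ≤ (primeCount a b c u v : ℝ)

lemma logSum_eq (a b c : ℤ) (u v : ℕ) :
    logSum a b c u v = ∑ m ∈ Ioc u v, 1 / Real.log ((a : ℝ) * m ^ 2 + b * m + c) := by
  unfold logSum
  rw [sum_filter]
  refine sum_congr rfl fun n _ => ?_
  have e : ((a * (n : ℤ) ^ 2 + b * n + c : ℤ) : ℝ) = (a : ℝ) * n ^ 2 + b * n + c := by push_cast; ring
  split_ifs with h
  · rw [Real.log_abs]
  · rw [← e]
    have h' : a * (n : ℤ) ^ 2 + b * n + c = 0 ∨ a * (n : ℤ) ^ 2 + b * n + c = 1 ∨ a * (n : ℤ) ^ 2 + b * n + c = -1 := by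
      rw [not_le] at h
      have := abs_lt.1 h
      omega
    rcases h' with h | h | h <;> rw [h] <;> simp

lemma expected_nonneg (a b c : ℤ) (u v : ℕ) {S : ℝ} (hS : 0 < S) :
    0 ≤ eps a b * S * gcdProd a b * ∑ m ∈ Ioc u v, 1 / Real.log ((a : ℝ) * m ^ 2 + b * m + c) := by
  have h1 : 0 ≤ eps a b := by
    unfold eps
    split_ifs <;> norm_num
  have h2 : 0 ≤ gcdProd a b := by
    unfold gcdProd
    refine prod_nonneg fun p hp => ?_
    have hp2 : 2 < p := (mem_filter.1 hp).2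
    have : (2 : ℝ) < p := by exact_mod_cast hp2
    exact div_nonneg (by linarith) (by linarith)
  refine mul_nonneg (mul_nonneg (mul_nonneg h1 hS.le) h2) (sum_nonneg fun m _ => ?_)
  refine div_nonneg zero_le_one ?_
  have e : ((a * (m : ℤ) ^ 2 + b * m + c : ℤ) : ℝ) = (a : ℝ) * m ^ 2 + b * m + c := by push_cast; ring
  rw [← e]
  exact Real.log_intCast_nonneg _

lemma between_of {a : ℤ} {κ1 κ2 θ η : ℝ} {x : ℕ} {b c : ℤ} (h : Pool.Agent.H568.QTk a κ1 κ2 θ η x b c)
    (hadm : Admissible a b c) : Between κ1 κ2 a θ η x b c := by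
  obtain ⟨S, m1, m2, m3, m4⟩ := h hadm
  refine ⟨S, m1, m2, m3, fun u v huv hvx => ?_⟩
  rw [logSum_eq]
  exact m4 u v huv hvx

/-- part (4) -/
theorem proportion (a : ℤ) (ha : 0 < a) (b : ℤ) (ε : ℝ) (hε : 0 < ε) :
    ∃ κ : ℝ, 0 < κ ∧ ∃ x0 : ℕ, ∀ x : ℕ, x0 ≤ x → ∀ C : ℕ, (x : ℝ) ^ (1 / 2 + ε) ≤ C → C ≤ x →
      κ * C ≤ (#((Icc 1 C).filter (fun c : ℕ => κ * (x / Real.log x) ≤ (primeCount a b (c : ℤ) 0 x : ℝ))) : ℝ) ∧
      κ * C ≤ (#((Icc 1 C).filter (fun c : ℕ => κ * (x / Real.log x) ≤ (primeCount a b (-(c : ℤ)) 0 x : ℝ))) : ℝ) := by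
  obtain ⟨A, rfl⟩ : ∃ A : ℕ, a = A := ⟨a.toNat, by omega⟩
  have hA : 1 ≤ A := by omega
  obtain ⟨κ1, hκ1, x1, h1⟩ := Pool.Agent.H568.PH.ph_fin A b 1 hA (Or.inl rfl) ε hε
  obtain ⟨κ2, hκ2, x2, h2⟩ := Pool.Agent.H568.PH.ph_fin A b (-1) hA (Or.inr rfl) ε hε
  have hweak : ∀ {κ κ' : ℝ} (hκ : κ ≤ κ') (C x : ℕ) (f : ℕ → ℕ),
      κ' * C ≤ (#((Icc 1 C).filter (fun c : ℕ => κ' * (x / Real.log x) ≤ (f c : ℝ))) : ℝ) →
      κ * C ≤ (#((Icc 1 C).filter (fun c : ℕ => κ * (x / Real.log x) ≤ (f c : ℝ))) : ℝ) := by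
    intro κ κ' hκ C x f h
    have hT : 0 ≤ (x : ℝ) / Real.log x := div_nonneg (by positivity) (Real.log_natCast_nonneg _)
    refine (mul_le_mul_of_nonneg_right hκ (by positivity)).trans (h.trans (Nat.cast_le.2 (card_le_card fun c hc => ?_)))
    rw [mem_filter] at hc ⊢
    exact ⟨hc.1, (mul_le_mul_of_nonneg_right hκ hT).trans hc.2⟩
  refine ⟨min κ1 κ2, by positivity, x1 + x2, fun x hx C hC1 hC2 => ⟨?_, ?_⟩⟩
  · refine hweak (min_le_left κ1 κ2) C x (fun c : ℕ => primeCount (A : ℤ) b (c : ℤ) 0 x) ((h1 x (by omega) C hC1 hC2).trans (le_of_eq ?_))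
    simp only [one_mul]
    rfl
  · refine hweak (min_le_right κ1 κ2) C x (fun c : ℕ => primeCount (A : ℤ) b (-(c : ℤ)) 0 x) ((h2 x (by omega) C hC1 hC2).trans (le_of_eq ?_))
    simp only [neg_mul, one_mul]
    rfl

/-- **Factors close to `1`, for almost all `|c| ≤ C`, `C ≥ x^(5/6 - k + ε)`, and for 100 percent of the pairs `(b, c)`;
the right order for `C ≥ x^(5/8+ε)`.** Let `a > 0`, `ε > 0`, `η > 0`.

Let `0 < k ≤ 2/15`. (1) Let `b` be an integer. There are `θ > 0` and `x0` such that for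
`x ≥ x0` and all `C` with `x^(5/6 - k + ε) ≤ C ≤ x` all but at most `η C` of the integers `|c| ≤ C` with `(a, b, c)`
admissible satisfy `Between` with the factors `1 - 12 k²` and `1 + (11/3) k`: every interval `(u, v]` with `v ≤ x`
contains at least `1 - 12 k²` times and at most `1 + (11/3) k` times the number of `m` with `a m² + b m + c` prime which
Hardy and Littlewood predict, up to an error `η M x / log x`. (2) There are `θ > 0` and `H0` such that for `H ≥ H0` and
all `N` with `H² ≤ N ≤ H^(2/(5/6-k)-ε)` all but at most `η H²` of the pairs `(b, c)` of integers with `|b|, |c| ≤ H` and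
`(a, b, c)` admissible satisfy `Between` with the same factors, with `N` in place of `x`.

(3) Let `b` be an integer. There are `θ > 0` and `x0` such that for `x ≥ x0` and all `C` with `x^(5/8 + ε) ≤ C ≤ x` all but
at most `η C` of the integers `|c| ≤ C` with `(a, b, c)` admissible satisfy the lower bound `AtLeast` with the factor
`1/10`, and if `C ≥ x^(2/3 + ε)`, `Between` with the factors `1/2` and `5/3`.

(4) Let `b` be an integer. There are `κ > 0` and `x0` such that for `x ≥ x0` and all `C` with `x^(1/2 + ε) ≤ C ≤ x` at least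
`κ C` of the integers `1 ≤ c ≤ C`, and at least `κ C` of the integers `-C ≤ c ≤ -1`, have at least `κ x / log x` integers
`1 ≤ m ≤ x` with `a m² + b m + c` prime. -/
theorem result (a : ℤ) (ha : 0 < a) (ε η : ℝ) (hε : 0 < ε) (hη : 0 < η) :
    (∀ k : ℝ, 0 < k → k ≤ 2 / 15 →
      (∀ b : ℤ, ∃ θ : ℝ, 0 < θ ∧ ∃ x0 : ℕ, ∀ x : ℕ, x0 ≤ x → ∀ C : ℕ, (x : ℝ) ^ (5 / 6 - k + ε) ≤ C → C ≤ x →
        ∃ Ex ⊆ Icc (-(C : ℤ)) C, (#Ex : ℝ) ≤ η * C ∧
          ∀ c ∈ Icc (-(C : ℤ)) C, c ∉ Ex → Admissible a b c → Between (1 - 12 * k ^ 2) (1 + 11 / 3 * k) a θ η x b c) ∧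
      ∃ θ : ℝ, 0 < θ ∧ ∃ H0 : ℕ, ∀ H : ℕ, H0 ≤ H → ∀ N : ℕ, H ^ 2 ≤ N → (N : ℝ) ≤ (H : ℝ) ^ (2 / (5 / 6 - k) - ε) →
        ∃ Ex ⊆ Icc (-(H : ℤ)) H ×ˢ Icc (-(H : ℤ)) H, (#Ex : ℝ) ≤ η * H ^ 2 ∧
          ∀ q ∈ Icc (-(H : ℤ)) H ×ˢ Icc (-(H : ℤ)) H, q ∉ Ex → Admissible a q.1 q.2 →
            Between (1 - 12 * k ^ 2) (1 + 11 / 3 * k) a θ η N q.1 q.2) ∧
    (∀ b : ℤ, ∃ θ : ℝ, 0 < θ ∧ ∃ x0 : ℕ, ∀ x : ℕ, x0 ≤ x → ∀ C : ℕ, (x : ℝ) ^ (5 / 8 + ε) ≤ C → C ≤ x →
      ∃ Ex ⊆ Icc (-(C : ℤ)) C, (#Ex : ℝ) ≤ η * C ∧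
        ∀ c ∈ Icc (-(C : ℤ)) C, c ∉ Ex → Admissible a b c → AtLeast (1 / 10) a θ η x b c ∧
          ((x : ℝ) ^ (2 / 3 + ε) ≤ C → Between (1 / 2) (5 / 3) a θ η x b c)) ∧
    ∀ b : ℤ, ∃ κ : ℝ, 0 < κ ∧ ∃ x0 : ℕ, ∀ x : ℕ, x0 ≤ x → ∀ C : ℕ, (x : ℝ) ^ (1 / 2 + ε) ≤ C → C ≤ x →
      κ * C ≤ (#((Icc 1 C).filter (fun c : ℕ => κ * (x / Real.log x) ≤ (primeCount a b (c : ℤ) 0 x : ℝ))) : ℝ) ∧
      κ * C ≤ (#((Icc 1 C).filter (fun c : ℕ => κ * (x / Real.log x) ≤ (primeCount a b (-(c : ℤ)) 0 x : ℝ))) : ℝ) := by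
  classical
  refine ⟨fun k hk hk1 => ⟨fun b => ?_, ?_⟩, fun b => ?_, fun b => proportion a ha b ε hε⟩
  · obtain ⟨θ, hθ, x0, h⟩ := Pool.Agent.H568.near_c a ha b k hk hk1 ε η hε hη
    refine ⟨θ, hθ, x0, fun x hx C hC1 hC2 => ?_⟩
    obtain ⟨Ex, k1, k2, k3⟩ := h x hx C hC1 hC2
    exact ⟨Ex, k1, k2, fun c hc hcE hadm => between_of (k3 c hc hcE) hadm⟩
  · obtain ⟨θ, hθ, H0, h⟩ := Pool.Agent.H568.near_pair a ha k hk hk1 ε η hε hη
    refine ⟨θ, hθ, H0, fun H hH N hN1 hN2 => ?_⟩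
    obtain ⟨Ex, k1, k2, k3⟩ := h H hH N hN1 hN2
    exact ⟨Ex, k1, k2, fun q hq hqE hadm => between_of (k3 q hq hqE) hadm⟩
  · obtain ⟨θ, hθ, x0, h⟩ := Pool.Agent.H568.LB.fam_both a ha b ε η hε hη
    refine ⟨θ, hθ, x0, fun x hx C hC1 hC2 => ?_⟩
    obtain ⟨Ex, k1, k2, k3⟩ := h x hx C hC1 hC2
    refine ⟨Ex, k1, k2, fun c hc hcE hadm => ?_⟩
    obtain ⟨S, m1, m2, m3, m4⟩ := k3 c hc hcE hadm
    constructor
    · refine ⟨S, m1, m2, m3, fun u v huv hvx => ?_⟩
      rw [logSum_eq]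
      refine le_trans ?_ (m4 u v huv hvx).1
      have hs := expected_nonneg a b c u v m1
      split_ifs with hcc
      · exact sub_le_sub_right (mul_le_mul_of_nonneg_right (by norm_num : (1 / 10 : ℝ) ≤ 1 / 2) hs) _
      · exact le_rfl
    · intro hcc
      refine ⟨S, m1, m2, m3, fun u v huv hvx => ?_⟩
      rw [logSum_eq]
      have h4 := m4 u v huv hvx
      rw [if_pos hcc] at h4
      exact ⟨h4.1, h4.2 hcc⟩

end Pool.Agent.Results.MP_a1177c_nt.NearAsymptotic
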