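import Mathlib
import Pool.Agent.H183.Par.BRUN
import Pool.Agent.H290.FX.PSuc
import Pool.Agent.H290.FX.PSzmb
import Pool.Agent.H290.FX.PSgw
import Pool.Agent.H290.FX.PSua
import Pool.Agent.H290.FX.PSuf

/-!
# A prime value of a quadratic polynomial with almost prime values of other forms

`K` is a finite field of characteristic `2` with `q` elements.  For all `k`, `E` there are `r`, `d₀` and
`θ, δ > 0` such that for all `d ≥ d₀`, all `α ≠ 0`, `β` in `K[X]` of degree at most `θ d` with `α β` not a
square and all forms `a i T ^ (2 ^ e i) + b i`, `i < k`, with `e i ≤ E` (linear forms for `e i = 0`,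
quadratic ones for `e i = 1`) and coefficients of degree at most `E d`, admissible together with
`α T ^ 2 + β`, there are at least `δ q ^ d / d ^ (k + 1)` monic `T` of degree `d` such that
`α T ^ 2 + β` is irreducible and each of the forms has at most `r` irreducible factors, all of degree
at least `d / r`.  This is the order of magnitude which the conjecture of Bateman and Horn predicts
for the `T` for which all the `k + 1` values are irreducible, and it holds uniformly in the polynomials.

For `e i = 1`, `a i = c i α`, `b i = c i β + 1`: primes `n = α T ^ 2 + β` for which all the `c i n + 1`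
are almost primes.  With `M ^ 2 α`, `α s ^ 2 + β` in place of `α`, `β`: the `T` in the class of `s` modulo `M`.

Proof: the fundamental lemma of the sieve in the sequence of the `T` with `α T ^ 2 + β`
irreducible, which has a positive level of distribution by the asymptotic formula with a power saving
(`MP_a17b09_nt.InseparableQuadratics`, all residue classes, helper604).  Lean proofs of the parts:
helper236 (residue classes), helper597 (Mertens bound), helper737 (local densities), helper363 (sieve),
helper290 (statements, last step, the forms with `e i > 0`, uniformity).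
-/

set_option autoImplicit false

namespace Pool.Agent.Results.MP_a1177c_nt.PrimeWithAlmostPrimes

open Polynomial

/-- for every prime `P` there is an argument `x` for which `P` divides none of the values
`α x ^ 2 + β`, `a i x ^ (2 ^ e i) + b i` -/
def Admissible {K : Type} [Field K] {k : ℕ} (α β : K[X]) (a b : Fin k → K[X]) (e : Fin k → ℕ) :
    Prop :=
  ∀ P : K[X], P.Monic → Irreducible P →
    ∃ x : K[X], ¬ P ∣ α * x ^ 2 + β ∧ ∀ i, ¬ P ∣ a i * x ^ (2 ^ e i) + b i

/-- the monic `t` of degree `d` with `α t ^ 2 + β` irreducible for which every `a i t ^ (2 ^ e i) + b i` has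
at most `r` irreducible factors (with multiplicity), all of degree at least `d / r` -/
def Good {K : Type} [Field K] {k : ℕ} (α β : K[X]) (a b : Fin k → K[X]) (e : Fin k → ℕ)
    (r d : ℕ) : Set K[X] :=
  {t | t.Monic ∧ t.natDegree = d ∧ Irreducible (α * t ^ 2 + β) ∧
    ∀ i, Multiset.card (UniqueFactorizationMonoid.factors (a i * t ^ (2 ^ e i) + b i)) ≤ r ∧
      ∀ P : K[X], Irreducible P → P ∣ a i * t ^ (2 ^ e i) + b i → d ≤ r * P.natDegree}

/-- **A prime value of a quadratic polynomial with almost prime values of other forms.** -/
theorem result (K : Type) [Field K] [Fintype K] (hK : Even (Fintype.card K)) (k E : ℕ) :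
    ∃ (r d₀ : ℕ) (θ δ : ℝ), 0 < θ ∧ 0 < δ ∧
      ∀ (d : ℕ) (α β : K[X]) (a b : Fin k → K[X]) (e : Fin k → ℕ), d₀ ≤ d → α ≠ 0 →
        ¬ IsSquare (α * β) → (α.natDegree : ℝ) ≤ θ * d → (β.natDegree : ℝ) ≤ θ * d →
        (∀ i, e i ≤ E ∧ (a i).natDegree ≤ E * d ∧ (b i).natDegree ≤ E * d) →
        Admissible α β a b e →
          δ * (Fintype.card K : ℝ) ^ d / (d : ℝ) ^ (k + 1) ≤ ((Good α β a b e r d).ncard : ℝ) := by
  have hchar : CharP K 2 := by
    obtain ⟨p, hp⟩ := CharP.exists K
    have := hp
    obtain ⟨m, hprime, hcard⟩ := FiniteField.card K p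
    rw [hcard] at hK
    have : p = 2 := (Nat.Prime.even_iff hprime).1 (Nat.even_pow.1 hK).1
    rwa [this] at hp
  exact Pool.Agent.H290.FX.PSuf.main (Pool.Agent.H290.FX.PSua.main Pool.Agent.H183.Par.brun
    Pool.Agent.H290.FX.PSuc.main Pool.Agent.H290.FX.PSzmb.main Pool.Agent.H290.FX.PSgw.main) K k E

end Pool.Agent.Results.MP_a1177c_nt.PrimeWithAlmostPrimes
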