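import Mathlib
import Pool.Agent.H290.FX.AsmF
import Pool.Agent.H290.FX.PFhido
import Pool.Agent.H290.FX.PFminm
import Pool.Agent.H290.FX.PFmins
import Pool.Agent.H290.FX.PFcls
import Pool.Agent.H290.FX.PFcvx
import Pool.Agent.H290.FX.PFpos
import Pool.Agent.H290.FX.PFmid
import Pool.Agent.H290.FX.PFrfin
import Pool.Agent.H290.FX.PFinn
import Pool.Agent.H290.FX.PFgj
import Pool.Agent.H290.FX.PFfsd

/-!
# Sárközy's theorem with a power saving for the prime values of `X m ^ 2 + 1`

`K` is a finite field of characteristic `2` with `q` elements.  There is a `c > 0` such that for all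
large `D` every set of at least `q ^ ((1 - c) D)` polynomials of degree `< D` contains two elements
whose difference `m` is monic with `X m ^ 2 + 1` irreducible.

Over `F_q[X]`, `q` even, `X T ^ 2 + 1` is the simplest quadratic polynomial with infinitely many prime
values and without a local obstruction at `T = 0` (the values of `T ^ 2 + X` at `T = 0` is divisible
by the prime `X`).

Proof.  The exponential sums over these `m` are small for all additive characters without a period of
small degree; this comes from the estimates for the divisors of `a ^ 2 + X`, `a = X m`, with an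
arbitrary character (`Pool/Agent/H290/FX`).  For the characters with a period `r` of small degree the
sums are evaluated with the asymptotic formula for inseparable quadratics in residue classes
(`MP_a17b09_nt.InseparableQuadratics`, helper604 and others).  The weight of `m` is the number of the
monic `s ∣ m` of degree `n = κ D`, weighted with `∏_{P ∣ X s} (1 - 1 / |P|)`; as `s` is exactly
equidistributed modulo `r` if `deg r ≤ n`, the main term of the exponential sum of the weight is
`∏_{P} (1 - χ (c_P)) ≥ 0` for these `r`, with no error term, and it is small for all other `r`.  The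
degrees `j` of `m` have the weights `2 ^ j`, which gives nonnegativity up to `2 ^ (D / 2)` also at the
infinite place.

Authors: statements and paper proofs helper290; Lean proofs of the parts: helper997, 289, 376, 236, 737,
115, 225, 355, 282, 227, 351; and the authors of the two results mentioned.
-/

set_option autoImplicit false

namespace Pool.Agent.Results.MP_a1177c_nt.SarkozyPowerSaving

open Polynomial

/-- **Sárközy's theorem with a power saving for the `m` with `X m ^ 2 + 1` irreducible.** -/
theorem result (K : Type) [Field K] [Fintype K] (hK : Even (Fintype.card K)) :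
    ∃ c : ℝ, 0 < c ∧ ∃ d₀ : ℕ, ∀ (D : ℕ) (A : Finset K[X]), d₀ ≤ D →
      (∀ a ∈ A, a.degree < (D : WithBot ℕ)) → (Fintype.card K : ℝ) ^ ((1 - c) * D) ≤ A.card →
      ∃ a ∈ A, ∃ b ∈ A, (a - b).Monic ∧ Irreducible (X * (a - b) ^ 2 + 1) := by
  have hchar : CharP K 2 := by
    obtain ⟨p, hp⟩ := CharP.exists K
    have := hp
    obtain ⟨m, hprime, hcard⟩ := FiniteField.card K p
    rw [hcard] at hK
    have : p = 2 := (Nat.Prime.even_iff hprime).1 (Nat.even_pow.1 hK).1
    rwa [this] at hp
  have minm := Pool.Agent.H290.FX.PFminm.main Pool.Agent.H290.FX.PFhido.main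
    Pool.Agent.H290.FX.Asm.nearx Pool.Agent.H290.FX.Asm.far2x Pool.Agent.H290.FX.Asm.far1x
  have mins := Pool.Agent.H290.FX.PFmins.main Pool.Agent.H290.FX.Asm.per minm
  have rfin := Pool.Agent.H290.FX.PFrfin.main Pool.Agent.H290.FX.PFcvx.main
  have inn := Pool.Agent.H290.FX.PFinn.main Pool.Agent.H290.FX.PFcls.main rfin
  have gj := Pool.Agent.H290.FX.PFgj.main Pool.Agent.H290.FX.PUniq.main
    Pool.Agent.H290.FX.PFcvx.main (Pool.Agent.H290.FX.PFpos.main Pool.Agent.H290.FX.PFcvx.main)
    Pool.Agent.H290.FX.PFmid.main inn mins
  exact Pool.Agent.H290.FX.PFfsd.main Pool.Agent.H290.FX.POrth.main gj K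

end Pool.Agent.Results.MP_a1177c_nt.SarkozyPowerSaving
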